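import Pool.Agent.D0H91.MG.Nr

/-!
# Primes at polylogarithmic distance from `α n ^ k`, `n` in an arbitrary dense set, for almost every `α`

Let `A` be any set of positive integers with at least `c N / (log N) ^ C` elements up to `N`, for large `N`.

(1) For every real `k > 0` and almost every `α > 0`, uniformly in `1 ≤ y ≤ N ^ (k (1 - η))`, the average number of
primes in the intervals `(α n ^ k, α n ^ k + y]`, `n ∈ A`, `n ≤ N`, is asymptotically `y / (k log N)`; and as soon as
`y ≥ (log N) ^ (2 C + 24)`, at least the proportion `(1 - τ) / 4 - ε` of these intervals contains at least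
`τ y / (k log N)` primes.

(2) For all `k₁, …, k_r > 0` and almost every `(α₁, …, α_r)`, at least the proportion `4 ^ (-r) - ε` of the `n ∈ A`,
`n ≤ N`, is such that for every `j` there is a prime in `(α_j n ^ k_j, α_j n ^ k_j + (log n) ^ (2 C + 25)]`. The
exponent of the logarithm does not depend on `r`, `k_j`, `α_j`.

The starting result `ThinTranslates` is about the translates `A + a` for almost all `a` of thin families.

Proof. Average: the engine `D0H91.MG` (twisted sums of `Λ` by Vinogradov-Korobov at all frequencies up to a power of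
`N`, large values of Dirichlet polynomials with arbitrary coefficients by moments, Plancherel, Borel-Cantelli for all
`N` and `y` at once). Upper bound for arbitrary subsets: Selberg's function, its variance over short intervals
(`Pool.Agent.W301.SS`) carried over to `α n ^ k` by a change of variables for each `n`, Borel-Cantelli over dyadic
scales and a grid of lengths. (2) follows by induction and Fubini's theorem, as `A` is arbitrary.
-/

set_option autoImplicit false

namespace Pool.Agent.Results.MP_711652_nt.MetricDilates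

open Filter Topology MeasureTheory Finset
open Pool.Agent.D0H91.MG
open Pool.Agent.W301.SS (pn)

/-- the number of primes in `(x, x + y]` -/
noncomputable def primesIn (x y : ℝ) : ℕ := {p : ℕ | p.Prime ∧ x < p ∧ (p : ℝ) ≤ x + y}.ncard

open Classical in
/-- the elements `n` of `A` with `1 ≤ n ≤ N` -/
noncomputable def upTo (A : Set ℕ) (N : ℕ) : Finset ℕ := (Icc 1 N).filter (· ∈ A)

theorem primesIn_eq {x : ℝ} (hx : 0 ≤ x) (y : ℕ) : primesIn x y = pn ⌊x⌋₊ y := by
  unfold primesIn pn
  rw [← Set.ncard_coe_finset]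
  congr 1
  ext p
  rw [Finset.mem_coe, Finset.mem_filter, Finset.mem_Ioc, Set.mem_setOf_eq, Nat.floor_lt hx,
    ← Nat.floor_add_natCast hx, Nat.le_floor_iff (by positivity)]
  tauto

open Classical in
theorem result (C : ℕ) (c : ℝ) (hc : 0 < c) :
    (∀ k : ℝ, 0 < k → ∀ A : Set ℕ, (∀ᶠ N : ℕ in atTop, c * (N / Real.log N ^ C) ≤ #(upTo A N)) →
      ∀ᵐ α ∂((volume : Measure ℝ).restrict {α | 0 < α}), ∀ ε η : ℝ, 0 < ε → 0 < η →
        ∀ᶠ N : ℕ in atTop, ∀ y : ℕ, 1 ≤ y → (y : ℝ) ≤ (N : ℝ) ^ (k * (1 - η)) →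
          |(∑ n ∈ upTo A N, (primesIn (α * (n : ℝ) ^ k) y : ℝ)) * (k * Real.log N) - #(upTo A N) * y| ≤
              ε * (#(upTo A N) * y) ∧
          (Real.log N ^ (2 * C + 24) ≤ y → ∀ τ : ℝ, 0 ≤ τ → τ ≤ 1 →
            ((1 - τ) / 4 - ε) * #(upTo A N) ≤
              #((upTo A N).filter fun n : ℕ =>
                τ * y ≤ (primesIn (α * (n : ℝ) ^ k) y : ℝ) * (k * Real.log N)))) ∧
    (∀ (r : ℕ) (k : Fin r → ℝ), (∀ j, 0 < k j) →
      ∀ A : Set ℕ, (∀ᶠ N : ℕ in atTop, c * (N / Real.log N ^ C) ≤ #(upTo A N)) →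
      ∀ᵐ α ∂((volume : Measure (Fin r → ℝ)).restrict {α | ∀ j, 0 < α j}), ∀ ε : ℝ, 0 < ε →
        ∀ᶠ N : ℕ in atTop, ((1 / 4) ^ r - ε) * #(upTo A N) ≤
          #((upTo A N).filter fun n : ℕ => ∀ j, ∃ p : ℕ, p.Prime ∧ α j * (n : ℝ) ^ (k j) < p ∧
            (p : ℝ) ≤ α j * (n : ℝ) ^ (k j) + Real.log n ^ (2 * C + 25))) := by
  refine ⟨fun k hk A hA => ?_, fun r k hk A hA => ?_⟩
  · have hpos : MeasurableSet {α : ℝ | 0 < α} := measurableSet_lt measurable_const measurable_id
    rw [ae_restrict_iff' hpos]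
    filter_upwards [first k hk A C c hc hA, many_k k hk A C c hc hA] with α h1 h2 hα0 ε η hε hη
    have hα0' : 0 < α := hα0
    filter_upwards [h1 hα0' ε η hε hη, h2 hα0' ε η hε hη] with N h3 h4 y hy hyN
    have e1 : ∀ n : ℕ, primesIn (α * (n : ℝ) ^ k) y = pn ⌊α * (n : ℝ) ^ k⌋₊ y := by
      intro n
      apply primesIn_eq
      positivity
    simp only [e1]
    refine ⟨h3 y hy hyN, fun hyL τ hτ0 hτ1 => ?_⟩
    have h5 := h4 y hyL hyN τ hτ0 hτ1
    exact h5
  · have hpos : MeasurableSet {α : Fin r → ℝ | ∀ j, 0 < α j} := by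
      have e : {α : Fin r → ℝ | ∀ j, 0 < α j} = ⋂ j, {α : Fin r → ℝ | 0 < α j} := by
        ext α
        simp only [Set.mem_iInter]
        exact Iff.rfl
      rw [e]
      exact MeasurableSet.iInter fun j => pos_meas j
    rw [ae_restrict_iff' hpos]
    filter_upwards [near_several C r k hk A ⟨c, hc, hA⟩] with α h1 hα ε hε
    obtain ⟨m, hm⟩ := exists_nat_one_div_lt hε
    filter_upwards [h1 hα m] with N h2
    have hP0 : (0 : ℝ) ≤ #(upTo A N) := Nat.cast_nonneg _
    have h3 : ((1 / 4) ^ r - ε) * #(upTo A N) ≤ ((1 / 4) ^ r - 1 / ((m : ℝ) + 1)) * #(upTo A N) :=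
      mul_le_mul_of_nonneg_right (by linarith) hP0
    refine h3.trans (h2.trans (le_of_eq ?_))
    congr 2
    ext n
    rw [mem_At]
    unfold upTo An near
    simp only [Finset.mem_filter, Finset.mem_Icc, Set.mem_setOf_eq]
    tauto

end Pool.Agent.Results.MP_711652_nt.MetricDilates
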