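import Pool.Agent.D0H92.RG.AutFin

/-!
# Record gaps around nearly all elements of every automatic set

Let `A` be an automatic set which is not sparse: the number of its elements below `N` is not bounded by a power of `log N`.
Around nearly all of its elements (in the sense of exponents), and around the points `g n + c` for EVERY integer `c`, there
are no primes at a distance of at most `κ` times `log x * (log log x)^2 * log log log log x / (log log log x)^2`: up to the
constant, this is the size of the longest gaps between primes which are known to exist (proved in the starting files, for
free centres). Such a set may have only `x ^ δ` elements up to `x`, with any small `δ > 0`.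

From Mathlib: `DFA ℕ σ`: the deterministic automata with the set of states `σ` and the alphabet `ℕ`; `M.accepts`: the set
of the words accepted by `M`; `Nat.digits b v`: the digits of `v` in base `b`, from the least significant to the most
significant one.

Method. (1) For a state `s` of the (padded) automaton let `λ_l(s)` be the `l`-th root of the number of the loops of length `l`
at `s`; the supremum `Λ` over all `l` and all useful states is the rate of growth of the set (`Loops`, `Rate`). The loops of
one length at one state are the digits of an integer in base `b ^ l`; so the set contains images of sets of integers with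
missing digits, of nearly the same size. (2) Sets with missing digits (`digit_gap`): the covering sieve of the starting files
(`Pool.Agent.H256R2.SC`, helper256 and co-authors) needs the equidistribution of the centres modulo products of primes with a
power saving, which is false here. Its weight is expanded into a Fourier series, the coefficients are small, like
`q ^ (-1/4)` at the fractions with denominator `q`, and the exponential sums over the integers with missing digits are
summed over all these fractions, up to the denominator `e ^ (ε N)`, by the itineraries of the multiplication by the base.
-/

set_option autoImplicit false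

namespace Pool.Agent.Results.MP_711652_nt.RecordGapsInAutomaticSets

/-- The size of the largest known gaps: `record t = t (log t)^2 log log log t / (log log t)^2`. -/
noncomputable def record (t : ℝ) : ℝ :=
  t * Real.log t ^ 2 * Real.log (Real.log (Real.log t)) / Real.log (Real.log t) ^ 2

/-- For every integer `m` at a distance of at most `ρ` from `n`, the number `|m|` is not a prime, and `m` has a prime
factor of size at most `w`. -/
def PrimeFree (ρ w : ℝ) (n : ℤ) : Prop :=
  ∀ m : ℤ, |(m : ℝ) - n| ≤ ρ → ¬ m.natAbs.Prime ∧ ∃ q : ℕ, q.Prime ∧ (q : ℝ) ≤ w ∧ (q : ℤ) ∣ m

/-- **Record gaps around nearly all elements of every automatic set which is not sparse.**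

Let `b ≥ 2`, let `M` be a finite automaton such that the number of the integers `v < N` whose base `b` digits are accepted by
`M` is not bounded by a power of `log N`, let `g ≥ 1` and `η > 0`. There is `κ > 0` such that for all large `x` and for EVERY
integer `c`: if `A` is the number of the integers `n ≤ x` whose digits are accepted by `M`, then at least `A ^ (1 - η)` of
them have the following property: no `m` with `|m - (g n + c)| ≤ κ record (log x)` is a prime up to sign, and every such `m`
has a prime factor of size at most `x ^ (2 / log log x)`. -/
theorem result (b : ℕ) (σ : Type) [Finite σ] (M : DFA ℕ σ) (hb : 2 ≤ b)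
    (hM : ∀ k : ℕ, ∃ᶠ N : ℕ in Filter.atTop,
      Real.log N ^ k < ({v : ℕ | v < N ∧ Nat.digits b v ∈ M.accepts}.ncard : ℝ))
    (g : ℕ) (hg : 1 ≤ g) (η : ℝ) (hη : 0 < η) :
    ∃ κ : ℝ, 0 < κ ∧ ∀ᶠ x : ℝ in Filter.atTop, ∀ c : ℤ,
      ({n : ℕ | (n : ℝ) ≤ x ∧ Nat.digits b n ∈ M.accepts}.ncard : ℝ) ^ (1 - η) ≤
        ({n : ℕ | (n : ℝ) ≤ x ∧ Nat.digits b n ∈ M.accepts ∧
          PrimeFree (κ * record (Real.log x)) (Real.exp (2 * Real.log x / Real.log (Real.log x)))
            (g * n + c)}.ncard : ℝ) :=
  Pool.Agent.D0H92.RG.automatic2 b hb M hM g hg η hη

end Pool.Agent.Results.MP_711652_nt.RecordGapsInAutomaticSets
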