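import Pool.Agent.D0H19.PG.Fam

/-!
# Primes at a distance of at most a power of the logarithm to the right of several points at the same time

The points are `n + a 1, ..., n + a s`, where `n` runs through an arbitrary set of at least `N / log ^ C N` integers (for
example through the primes) and `(a 1, ..., a s)` is almost every vector of shifts from automatic sets and from sets of
integers whose digits label the walks between two vertices of a graph.

Nothing is used besides Mathlib in the statement. From Mathlib: `DFA ℕ σ`: the deterministic automata with the set of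
states `σ` and the alphabet `ℕ`; `M.accepts`: the set of the words accepted by `M`; `Nat.digits b v`: the digits of `v` in
base `b`, from the least significant to the most significant one.

Method: the estimates for one random shift are from the starting files (`Pool.Agent.W93`, `Pool.Agent.TH890` for automatic
sets, `Pool.Agent.N625` for walks), as are the telescoping inequality (`Pool.Agent.W93.TD.tele_w`), the fundamental lemma
(`Pool.Agent.H373R2.T7`) and the variance of Selberg's upper bound function over short intervals (`Pool.Agent.W301.SS`).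
-/

set_option autoImplicit false

namespace Pool.Agent.Results.MP_711652_nt.SeveralIntervals

open Finset

/-- The number of the primes in `(n, n + y]`. -/
def primesIn (n y : ℕ) : ℕ := ((Ioc n (n + y)).filter Nat.Prime).card

/-- The vector `a` of shifts is good for the set `B`. For all integers `y i` with `(log N) ^ K ≤ y i ≤ N / 4`:

* the average over `n ∈ B` of the product of the numbers of the primes in `(n + a i, n + a i + y i]`, `i < s`, differs
  from the product of the `y i / log N` by a relative error of at most `ε`;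
* at least `(1 / 4 ^ s - ε) |B|` elements `n` of `B` have at least `ε (y i) / log N` primes in
  `(n + a i, n + a i + y i]` for every `i < s`. -/
def Good {s : ℕ} (ε : ℝ) (K N : ℕ) (B : Finset ℕ) (a : Fin s → ℕ) : Prop :=
  ∀ y : Fin s → ℕ, (∀ i, Real.log N ^ K ≤ y i ∧ 4 * y i ≤ N) →
    |(∑ n ∈ B, ∏ i, (primesIn (n + a i) (y i) : ℝ)) * Real.log N ^ s - B.card * ∏ i, (y i : ℝ)| ≤
      ε * (B.card * ∏ i, (y i : ℝ)) ∧
    ((1 / 4) ^ s - ε) * B.card ≤
      ((B.filter fun n => ∀ i, ε * (y i : ℝ) ≤ (primesIn (n + a i) (y i) : ℝ) * Real.log N).card : ℝ)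

open Classical in
/-- The elements `v < N` of the automatic set given by the base `b` and the automaton `M`: the integers whose base
`b` digits are accepted by `M`. -/
noncomputable def aut {σ : Type} (b : ℕ) (M : DFA ℕ σ) (N : ℕ) : Finset ℕ :=
  (range N).filter fun v => Nat.digits b v ∈ M.accepts

/-- The digits `a < b` act on the set `X` of the vertices: an edge with the label `a` leads from `x` to `y` if
`δ x a = some y` (at most one edge with the label `a` starts at `x`). The number of the edges from `x` to `y` equals the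
number of the edges from `y` to `x`, and at least two edges start at every vertex. The graph may be infinite. -/
structure Graph {X : Type} (b : ℕ) (δ : X → ℕ → Option X) : Prop where
  symm : ∀ x y : X, {a : ℕ | a < b ∧ δ x a = some y}.ncard = {a : ℕ | a < b ∧ δ y a = some x}.ncard
  two : ∀ x : X, ∃ a a' : ℕ, a < a' ∧ a' < b ∧ (δ x a).isSome ∧ (δ x a').isSome

open Classical in
/-- The integers `v < b ^ k` whose `k` digits in base `b`, from the most significant to the least significant one (the
digit number `i`, `0 ≤ i < k`, from the left is `v / b ^ (k - 1 - i) % b`), are the labels of a walk from `x` to `y`. -/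
noncomputable def walks {X : Type} (b : ℕ) (δ : X → ℕ → Option X) (k : ℕ) (x y : X) : Finset ℕ :=
  (range (b ^ k)).filter fun v =>
    ((List.range k).map fun i => v / b ^ (k - 1 - i) % b).foldl (fun s a => s.bind fun z => δ z a) (some x) = some y

/-- The family `𝒱` of finite sets (`𝒱 N V`: the set `V` is allowed for `N`) consists of the sets of the elements `v < N`
of a fixed automatic set which is not sparse: the number of its elements below `N` is not bounded by a power of
`log N`. -/
def IsAutomatic (𝒱 : ℕ → Finset ℕ → Prop) : Prop :=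
  ∃ (b : ℕ) (σ : Type) (_ : Finite σ) (M : DFA ℕ σ), 2 ≤ b ∧
    (∀ k : ℕ, ∃ᶠ N : ℕ in Filter.atTop, Real.log N ^ k < ((aut b M N).card : ℝ)) ∧
    ∀ (N : ℕ) (V : Finset ℕ), 𝒱 N V → V = aut b M N

/-- The family `𝒱` of finite sets (`𝒱 N V`: the set `V` is allowed for `N`) consists of sets of integers whose `k` digits
in base `b` label the walks from `x` to `y`. Here the graph `δ`, the vertex `x`, `D` and `ρ > 0` are fixed such that there
are at most `ρ ^ (2 n)` closed walks of the length `2 n` at `x`, for all `n`; the length `k` and the vertex `y` may depend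
on `N`, but `N / B ≤ b ^ k ≤ B N` and there are at least `ρ ^ k / k ^ D` walks of the length `k` from `x` to `y`. -/
def IsWalking (B : ℕ) (𝒱 : ℕ → Finset ℕ → Prop) : Prop :=
  ∃ (b : ℕ) (X : Type) (δ : X → ℕ → Option X) (x : X) (ρ : ℝ) (D : ℕ), Graph b δ ∧ 0 < ρ ∧
    (∀ n : ℕ, ((walks b δ (2 * n) x x).card : ℝ) ≤ ρ ^ (2 * n)) ∧
    ∀ (N : ℕ) (V : Finset ℕ), 𝒱 N V → ∃ (k : ℕ) (y : X), b ^ k ≤ B * N ∧ N ≤ B * b ^ k ∧
      ρ ^ k / (k : ℝ) ^ D ≤ (walks b δ k x y).card ∧ V = walks b δ k x y

open Pool.Agent.D0H19.PG in
lemma fam_of {B κ : ℕ} (hκ : 1 ≤ κ) (𝒱 : ℕ → Finset ℕ → Prop) (h : IsAutomatic 𝒱 ∨ IsWalking B 𝒱) (U : ℕ) :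
    OneFam 𝒱 κ (B + 1) U := by
  classical
  rcases h with h | h
  · obtain ⟨b, σ, _, M, hb, hM, hV⟩ := h
    have := Fintype.ofFinite σ
    have h1 : Pool.Agent.TH890.OneShift (fun v => Nat.digits b v ∈ M.accepts) κ (B + 1) U :=
      Pool.Agent.W93.AU.au_one b hb M (fun k => hM k) κ hκ (B + 1) (by omega) _
    obtain ⟨A, B0, C, hC, h2⟩ := fam_os h1
    refine ⟨A, B0, C, hC, fun E => ?_⟩
    obtain ⟨N₀, h3⟩ := h2 E
    exact ⟨N₀, fun N hN V hVV => h3 N hN V (hV N V hVV)⟩
  · obtain ⟨b, X, δ, x, ρ, D, hG, hρ, hR, hV⟩ := h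
    obtain ⟨A, B0, C, hC, h2⟩ := fam_walk (⟨hG.symm, hG.two⟩ : Pool.Agent.N625.GW.Graph b δ) x ρ hρ hR D κ (B + 1) U hκ
    refine ⟨A, B0, C, hC, fun E => ?_⟩
    obtain ⟨N₀, h3⟩ := h2 E
    refine ⟨N₀ + B + 1, fun N hN V hVV => h3 N (by omega) V ?_⟩
    obtain ⟨k, y, hk1, hk2, hy, hVe⟩ := hV N V hVV
    refine ⟨k, y, hk1.trans (Nat.mul_le_mul_right _ (by omega)), hk2.trans (Nat.mul_le_mul_right _ (by omega)), ?_, hVe⟩
    have hk0 : 0 < k := by
      by_contra h0
      have h2 : k = 0 := by omega
      rw [h2, pow_zero, mul_one] at hk2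
      omega
    have hk1 : (0 : ℝ) < (k : ℝ) ^ D := by
      have : (0 : ℝ) < k := by exact_mod_cast hk0
      positivity
    rw [div_le_iff₀ hk1, mul_comm] at hy
    exact hy

open Classical in
/-- Let `s ≥ 1` and let `𝒱 1, ..., 𝒱 s` be families of finite sets of integers, each of them either automatic and not sparse
or consisting of the integers which label walks. Let `κ i ≥ 1`, `B`, `C`, `U` and `0 < ε < 1` be fixed. Then there is a
`K` such that for all large `N`, all sets `V i` of the families `𝒱 i` for `N`, all integers `0 ≤ c i ≤ B N` and all sets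
`A` of at least `N / log ^ C N` integers in `[1, N / 2]` the following holds for all the vectors `(v 1, ..., v s)` of
elements `v i ∈ V i`, with the exception of a proportion of at most `1 / log ^ U N` of them: for `a i = c i + κ i * v i` and
all integers `y i` with `log ^ K N ≤ y i ≤ N / 4`,

* the average over `n ∈ A` of the product over `i` of the number of the primes in `(n + a i, n + a i + y i]` is the product
  of the `y i / log N` up to a relative error of at most `ε`;
* at least `(1 / 4 ^ s - ε) |A|` elements `n` of `A` are such that for every `i` there are at least `ε (y i) / log N`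
  primes in `(n + a i, n + a i + y i]`.

In particular the distances from `n + a 1, ..., n + a s` to the next prime numbers are all less than `log ^ (K + 1) N` for at
least `(1 / 4 ^ s - ε) |A|` elements `n` of `A`, for example for a positive proportion of the prime numbers `n`. -/
theorem result (s : ℕ) (hs : 1 ≤ s) (B C U : ℕ) (𝒱 : Fin s → ℕ → Finset ℕ → Prop)
    (h𝒱 : ∀ i, IsAutomatic (𝒱 i) ∨ IsWalking B (𝒱 i)) (κ : Fin s → ℕ) (hκ : ∀ i, 1 ≤ κ i) (ε : ℝ) (hε : 0 < ε)
    (hε1 : ε < 1) :
    ∃ K N₀ : ℕ, ∀ N, N₀ ≤ N → ∀ V : Fin s → Finset ℕ, (∀ i, 𝒱 i N (V i)) → ∀ c : Fin s → ℕ, (∀ i, c i ≤ B * N) →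
      ∀ A : Finset ℕ, A ⊆ Icc 1 (N / 2) → N / Real.log N ^ C ≤ (A.card : ℝ) →
        (((Fintype.piFinset V).filter fun v => ¬ Good ε K N A (fun i => c i + κ i * v i)).card : ℝ) ≤
          ((Fintype.piFinset V).card : ℝ) / Real.log N ^ U := by
  obtain ⟨K, N₀, h⟩ := Pool.Agent.D0H19.PG.fam_count s hs 𝒱 κ (B + 1) C U ε hε hε1 (fun i => fam_of (hκ i) (𝒱 i) (h𝒱 i) _)
  refine ⟨K, N₀ + 3, fun N hN V hV c hc A hA hAN => ?_⟩
  have hlog : 0 < Real.log N := Real.log_pos (by exact_mod_cast (by omega : 1 < N))
  rw [div_le_iff₀ (by positivity)] at hAN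
  have h1 := h N (by omega) V hV c (fun i => (hc i).trans (Nat.mul_le_mul_right _ (by omega))) A hA hAN
  rw [le_div_iff₀ (by positivity), mul_comm]
  exact h1

end Pool.Agent.Results.MP_711652_nt.SeveralIntervals
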