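import Pool.Agent.D0H36.BW.Main2

/-!
# Sieve weights cannot see prime gaps longer than `(log Q) ^ (2 + ε)`

Author: helper36.  All known constructions of long gaps between primes (Westzynthius, Erdős, Rankin, Maier-Pomerance, Pintz,
Ford-Green-Konyagin-Tao, Maynard, Ford-Green-Konyagin-Maynard-Tao) choose `n ≤ X` by means of a weight `w(n)`, often the
indicator function of a residue class to a modulus `Q = X^O(1)`, so that `(n, n + L]` contains no integer free of small prime
factors, or fewer than usual.  We ask how long such gaps can be.  The weights allowed here are ALL real functions of level `Q`: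
combinations of functions of periods `d ≤ Q`, of either sign.  `rough z L n` is the number of the integers in `(n, n + L]`
without prime factor `p ≤ z`; its mean is about `L / log z`, and the primes larger than `z` are among the integers counted.

(1) Let `L ≥ (log Q) ^ (2 + ε)`.  For each `z` with `log z ≤ L^(1/2)` (so `z` may be any power of `Q`) and each weight `w` of
level `Q`, the `n` for which `rough z L n` is not between `c L / log z` and `C L / log z` carry a part `≤ Q^(-A)` of the mass of
`|w|`.  In particular no weight of level `Q` can be supported on gaps between `z`-rough numbers longer than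
`(log Q) ^ (2 + ε)`, none can detect them (a weight with positive mean is positive at some `n` for which `(n, n + L]` contains
the usual number of rough integers), and none can show that intervals of this length have more than `C` times the usual number.
So a disproof of the polylogarithmic bound for prime gaps, even a gap `> (log p) ^ (2 + ε)`, is out of reach of these methods.

(2) If `L ≥ (log Q) ^ K` with `K = K(A, ε)`, the same holds for the `n` with `rough z L n` not within a factor `1 ± ε` of the
expected number `L ∏_{p ≤ z} (1 - 1/p)`: the irregularities found by Maier with such weights disappear as `K` tends to infinity.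

For `w` the indicator function of a class and `z ≤ log Q` the lower bound in (1) is the theorem of Iwaniec (1978) on the
problem of Jacobsthal.  For `z` larger than all powers of `log Q` we know of no upper bound for the gaps between `z`-rough
numbers near `Q` which is a power of `log Q`.

Proof.  (i) By Fourier analysis on `ℤ/M` the supremum of `|w|` is at most `Q²` times its mean (`BW/Fourier`).  So it is enough
that the proportion of the bad `n` is `≤ Q^(-A-3)`.  (ii) Let `a = (log Q) ^ (1 + δ) ≤ L ^ (1/2 - δ')`.  For ALL `n` the number of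
the integers in `(n, n + L]` free of primes `≤ a` is of order `L / log a`, by the lower bound of the linear sieve (starting
files `K3h31/LP`, `Y882`), which works up to `L ^ (1/2 - δ')`, and by the fundamental lemma (`BW/DetA`, `BW/DetB`).  (iii) For
uniform `n` the classes modulo the primes `a < p ≤ z` are independent of each other; removing the class modulo `p` multiplies
the parameter `λ` of an exponential moment `E exp(∓ λ S)` of the number `S` of survivors by `1 - (1 ± x)/p`, where
`x = λ_p (L/p + 1)`, and with `λ_p ~ (a/L) log p / log a` the sum of `x/p` is bounded, so that nothing is lost up to the level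
`λ ~ a/L` at `a`; this gives probabilities `exp(- c a / log a)` (`BW/Step`, `BW/Prod`, `BW/LD`).
-/

set_option autoImplicit false

open Finset

namespace Pool.Agent.Results.MP_711652_nt.WeightsCannotSeeLongGaps

/-- the weight `w(n) = ∑_{d ≤ Q} c_d(n mod d)`, an arbitrary real weight of level `Q` -/
noncomputable def weight (Q : ℕ) (c : ℕ → ℕ → ℝ) (n : ℕ) : ℝ := ∑ d ∈ Icc 1 Q, c d (n % d)

/-- the number of the integers in `(n, n + L]` which have no prime factor `p ≤ z` -/
def rough (z L n : ℕ) : ℕ := ((Icc 1 L).filter (fun h => ∀ p ∈ Icc 1 z, p.Prime → ¬ p ∣ n + h)).card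

/-- the density `∏_{p ≤ z} (1 - 1/p)` of the integers without prime factor `p ≤ z` -/
noncomputable def density (z : ℕ) : ℝ := ∏ p ∈ (Icc 1 z).filter Nat.Prime, (1 - 1 / (p : ℝ))

/-- `M` is a common period: a positive common multiple of all positive integers `d ≤ max(Q, z)` -/
def Period (Q z M : ℕ) : Prop := 0 < M ∧ ∀ d : ℕ, 1 ≤ d → d ≤ max Q z → d ∣ M

theorem rough_eq (z L n : ℕ) : rough z L n = (Pool.Agent.D0H36.BW.sv z L n).card := rfl

theorem density_eq (z : ℕ) : density z = Pool.Agent.D0H36.BW.V z := by
  unfold density Pool.Agent.D0H36.BW.V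
  apply prod_congr _ (fun _ _ => rfl)
  ext p
  rw [mem_filter, mem_Icc, Pool.Agent.D0H36.BW.mem_pg]
  constructor
  · rintro ⟨⟨_, h2⟩, h3⟩
    exact ⟨h3.one_lt, h2, h3⟩
  · rintro ⟨h1, h2, h3⟩
    exact ⟨⟨h1.le, h2⟩, h3⟩

/-- Let `A > 0` and `0 < ε ≤ 1`.

(1) There are `c, C > 0` and `Q₀` such that for all integers `Q ≥ Q₀`, `L ≥ (log Q)^(2+ε)` and `z ≥ 2` with
`log z ≤ L^(1/2)`, all common periods `M` and all real weights `w` of level `Q`: the sum of `|w(n)|` over the `n < M` for which
the number of integers in `(n, n + L]` without prime factor `≤ z` is not in `[c L / log z, C L / log z]` is at most `Q^(-A)`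
times the sum over all `n < M`; and if the sum of `w` over the period is positive, then `w(n) > 0` for some `n < M` for which
this number is in `[c L / log z, C L / log z]`.

(2) There are `K` and `Q₀` such that for `Q ≥ Q₀`, `L ≥ (log Q)^K`, `z`, `M`, `w` as before: the sum of `|w(n)|` over the
`n < M` for which the number is not between `(1 - ε)` and `(1 + ε)` times `L ∏_{p ≤ z} (1 - 1/p)` is at most `Q^(-A)` times the
sum over all `n < M`. -/
theorem result (A ε : ℝ) (hA : 0 < A) (hε : 0 < ε) (hε1 : ε ≤ 1) :
    (∃ c C : ℝ, 0 < c ∧ 0 < C ∧ ∃ Q₀ : ℕ, ∀ Q L z M : ℕ, Q₀ ≤ Q → (Real.log Q) ^ (2 + ε) ≤ L → 2 ≤ z →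
      Real.log z ≤ Real.sqrt L → Period Q z M → ∀ co : ℕ → ℕ → ℝ,
      (∑ n ∈ (range M).filter (fun n => ¬ (c * (L / Real.log z) ≤ rough z L n ∧
        (rough z L n : ℝ) ≤ C * (L / Real.log z))), |weight Q co n| ≤
          (Q : ℝ) ^ (-A) * ∑ n ∈ range M, |weight Q co n|) ∧
      (0 < ∑ n ∈ range M, weight Q co n → ∃ n < M, (c * (L / Real.log z) ≤ rough z L n ∧
        (rough z L n : ℝ) ≤ C * (L / Real.log z)) ∧ 0 < weight Q co n)) ∧
    (∃ K : ℝ, ∃ Q₀ : ℕ, ∀ Q L z M : ℕ, Q₀ ≤ Q → (Real.log Q) ^ K ≤ L → 2 ≤ z →
      Real.log z ≤ Real.sqrt L → Period Q z M → ∀ co : ℕ → ℕ → ℝ,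
      ∑ n ∈ (range M).filter (fun n => ¬ ((1 - ε) * (L * density z) ≤ rough z L n ∧
        (rough z L n : ℝ) ≤ (1 + ε) * (L * density z))), |weight Q co n| ≤
          (Q : ℝ) ^ (-A) * ∑ n ∈ range M, |weight Q co n|) := by
  constructor
  · obtain ⟨c, C, hc, hC, Q₀, H⟩ := Pool.Agent.D0H36.BW.main1 (A + 1) ε hε
    refine ⟨c, C, hc, hC, max Q₀ 2, fun Q L z M hQ hQL hz hzL hM co => ?_⟩
    have hQ2 : 2 ≤ Q := (le_max_right _ _).trans hQ
    have hQ2' : (2 : ℝ) ≤ Q := by exact_mod_cast hQ2
    have h1 := H Q L z M ((le_max_left _ _).trans hQ) hQL hz hzL hM.1 hM.2 co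
    have hS : 0 ≤ ∑ n ∈ range M, |Pool.Agent.D0H36.BW.wt Q co n| := sum_nonneg fun n _ => abs_nonneg _
    have h2 : (Q : ℝ) ^ (-(A + 1)) ≤ (Q : ℝ) ^ (-A) :=
      Real.rpow_le_rpow_of_exponent_le (by linarith) (by linarith)
    have h3 : (Q : ℝ) ^ (-(A + 1)) ≤ 1 / 2 := by
      calc (Q : ℝ) ^ (-(A + 1)) ≤ (Q : ℝ) ^ (-(1 : ℝ)) :=
            Real.rpow_le_rpow_of_exponent_le (by linarith) (by linarith)
        _ = 1 / (Q : ℝ) := by rw [Real.rpow_neg (by linarith), Real.rpow_one, one_div]
        _ ≤ 1 / 2 := one_div_le_one_div_of_le (by norm_num) hQ2'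
    constructor
    · exact h1.trans (mul_le_mul_of_nonneg_right h2 hS)
    · intro hpos
      exact Pool.Agent.D0H36.BW.pos_point (Pool.Agent.D0H36.BW.wt Q co) _ _ h3 h1 hpos
  · obtain ⟨K, _, Q₀, H⟩ := Pool.Agent.D0H36.BW.main2 A ε hε hε1
    refine ⟨K, Q₀, fun Q L z M hQ hQL hz hzL hM co => ?_⟩
    have h1 := H Q L z M hQ hQL hz hzL hM.1 hM.2 co
    rw [← density_eq] at h1
    exact h1

end Pool.Agent.Results.MP_711652_nt.WeightsCannotSeeLongGaps
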